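import Pool.Agent.H66.Fhc3

namespace Pool.Agent.Results.MP_7d5718_an.NotChaotic

open Pool.Agent.H66.Fhc

theorem result (𝕜 : Type) [RCLike 𝕜] :
    ∃ (X : Type) (_ : NormedAddCommGroup X) (_ : NormedSpace 𝕜 X) (_ : CompleteSpace X)
      (S : ℤ → X ≃L[𝕜] X), UnifBdd S ∧
      ∀ (p : ENNReal) [Fact (1 ≤ p)], p ≠ ⊤ → FhcNotChaotic S p := by
  refine ⟨Y 𝕜, inferInstance, inferInstance, inferInstance, fun _ => T 𝕜,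
    ⟨max ‖(T 𝕜 : Y 𝕜 →L[𝕜] Y 𝕜)‖ ‖((T 𝕜).symm : Y 𝕜 →L[𝕜] Y 𝕜)‖, fun _ x => ⟨?_, ?_⟩⟩,
    fun p _ hp => ⟨sg 𝕜 p hp, sg_apply hp, fhc hp, not_chaotic hp⟩⟩
  · exact ((T 𝕜 : Y 𝕜 →L[𝕜] Y 𝕜).le_opNorm x).trans
      (mul_le_mul_of_nonneg_right (le_max_left _ _) (norm_nonneg _))
  · exact (((T 𝕜).symm : Y 𝕜 →L[𝕜] Y 𝕜).le_opNorm x).trans
      (mul_le_mul_of_nonneg_right (le_max_right _ _) (norm_nonneg _))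

end Pool.Agent.Results.MP_7d5718_an.NotChaotic
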